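import Pool.Agent.MWGR.StmtsF

/-!
# Row JZE of block MWGR: the edge `ze` is join prime
-/

set_option autoImplicit false

namespace Pool.Agent.MWGR.H25

open Pool.Agent.Helper14_MV Pool.Agent.Helper2_MV Pool.Agent.MVO Pool.Agent.MWL Pool.Agent.MWS
  Pool.Agent.MWH

theorem asm_one (B : ℕ → List ℕ) : asm 1 B = B 0 ++ 2 :: B 1 := rfl

theorem deg_one (a : ℕ → ℕ) : deg 1 a = a 0 + a 1 := by
  simp [deg, Finset.sum_range_succ]

theorem jze (hJ : JpigStmt) (hBGB : BgbStmt) (hMNB : MnbStmt) (hSTW : StwStmt) (hFRM : FrmStmt)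
    (hEAL : EalStmt) (hDAL : DalStmt) (hNTZ : NtzStmt) : JzeStmt := by
  intro n β hβ
  have hn := hβ.pos
  obtain ⟨hbas, -⟩ := hBGB n β hβ
  -- the two words
  have key : ∀ B0 B1 : ℕ → List ℕ, B0 0 = [1, 0, 0] → B0 1 = [1] → B1 0 = X n ++ [1, 0, 0] →
      B1 1 = [1] → JPp β (asm 1 B0, asm 1 B1) := by
    intro B0 B1 h00 h01 h10 h11
    have hc0 : ∀ j ≤ 1, ∀ c ∈ B0 j, c = 0 ∨ c = 1 := by
      intro j hj c hc
      obtain rfl | rfl : j = 0 ∨ j = 1 := by omega
      · rw [h00] at hc
        simp at hc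
        tauto
      · rw [h01] at hc
        simp at hc
        tauto
    have hc1 : ∀ j ≤ 1, ∀ c ∈ B1 j, c = 0 ∨ c = 1 := by
      intro j hj c hc
      obtain rfl | rfl : j = 0 ∨ j = 1 := by omega
      · rw [h10] at hc
        simp at hc
        tauto
      · rw [h11] at hc
        simp at hc
        tauto
    have hns : ∀ c, c = 0 ∨ c = 1 → NS 1 c := by
      rintro c (rfl | rfl) h
      · omega
      · omega
    refine hJ β hbas.cap 1 B0 B1
      (fun B => ∃ t r, 2 ≤ t ∧ 1 ≤ r ∧ B 0 = 1 :: X t ∧ B 1 = Y r) ?_ ?_ ?_ ?_ ?_ ?_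
    · refine ⟨fun j hj c hc => hns c (hc0 j hj c hc), fun j hj c hc => ?_⟩
      rw [deg_one, h00, h01]
      rcases hc0 j hj c hc with rfl | rfl <;> simp
    · refine ⟨fun j hj c hc => hns c (hc1 j hj c hc), fun j hj c hc => ?_⟩
      rw [deg_one, h10, h11]
      rcases hc1 j hj c hc with rfl | rfl <;> simp [List.count_replicate]
    · exact ⟨2, 1, le_refl _, le_refl _, by rw [h00]; rfl, by rw [h01]; rfl⟩
    · rintro ⟨t, r, -, -, h, -⟩
      rw [h10] at h
      obtain ⟨m, rfl⟩ : ∃ m, n = m + 1 := ⟨n - 1, by omega⟩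
      have h2 := congrArg List.head? h
      simp [X, List.replicate_succ] at h2
    · rintro B B' h ⟨t, r, a1, a2, a3, a4⟩
      exact ⟨t, r, a1, a2, by rw [← h 0 (by omega)]; exact a3, by rw [← h 1 (by omega)]; exact a4⟩
    · rintro θ hθ hnc hne B B' hB hB' hs hs' hr ⟨t, r, ht, hr1, e0, e1⟩
      have hG := (hMNB n β θ hθ).1 hβ
      have hze : ¬ Ze n (RR θ) := by
        intro h
        apply hne
        rw [asm_one, asm_one, h00, h01, h10, h11]
        simpa [Ze] using h
      have hE : ¬ Has n (FC.ofFIC θ) Bit.E := fun h => hze (hEAL n θ hG h).2.1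
      have hD : ¬ Has n (FC.ofFIC θ) (Bit.D 0) := fun h => hze (hDAL n θ hG h).2.1
      have hl : ∀ j ≤ 1, ∀ c ∈ B' j, c = 0 ∨ c = 1 := by
        intro j hj c hc
        obtain ⟨i, hi, hc'⟩ := hs' c ⟨j, hj, hc⟩
        exact hc0 i hi c hc'
      obtain ⟨d1, s1⟩ := hSTW n β θ hbas hθ hnc hD hE 1 B B' hB hB' hr 1 (hns 1 (Or.inr rfl))
        ⟨0, by omega, by rw [e0]; simp⟩
      obtain ⟨d0, s0⟩ := hSTW n β θ hbas hθ hnc hD hE 1 B B' hB hB' hr 0 (hns 0 (Or.inl rfl))
        ⟨0, by omega, by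
          rw [e0]
          exact List.mem_cons_of_mem _ (List.mem_replicate.2 ⟨by omega, rfl⟩)⟩
      -- the letter `1`
      have c10 : (B' 0).count 1 = 1 := by
        have h1 := ((s1 0 (by omega)).1 (fun p hp => absurd hp (Nat.not_lt_zero p))).1.1 (by
          show (B 0).count 1 = 1
          rw [e0]
          simp [List.count_replicate])
        exact h1
      have c11 : 1 ≤ (B' 1).count 1 := by
        have h1 : 2 ≤ (B' 0).count 1 + (B' 1).count 1 := by
          rw [deg_one] at d1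
          exact d1
        omega
      -- the letter `0`
      have c01 : (B' 1).count 0 = 0 := by
        have h1 := ((s0 1 (le_refl _)).2.1 (fun q hq1 hq2 => by omega)).1.1 (by
          show (B 1).count 0 = 0
          rw [e1]
          simp [List.count_replicate])
        exact h1
      have c00 : 2 ≤ (B' 0).count 0 := by
        have h1 : 2 ≤ (B' 0).count 0 + (B' 1).count 0 := by
          rw [deg_one] at d0
          exact d0
        omega
      obtain ⟨s, t', e0', hst⟩ := (hFRM.1 (B' 0) (hl 0 (by omega))).1 c10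
      have e1' := (hFRM.1 (B' 1) (hl 1 (le_refl _))).2.2 c01
      rcases Nat.eq_zero_or_pos s with rfl | hs0
      · refine ⟨t', (B' 1).count 1, by omega, c11, ?_, e1'⟩
        rw [e0']
        rfl
      · exfalso
        apply hze
        refine hNTZ n θ hG t s t' r ((B' 1).count 1) ht (by omega) hs0 hr1 c11 ?_
        rw [asm_one, asm_one, e0, e1, e0', e1'] at hr
        simpa using hr
  have h := key (fun j => if j = 0 then [1, 0, 0] else [1])
    (fun j => if j = 0 then X n ++ [1, 0, 0] else [1]) (by simp) (by simp) (by simp) (by simp)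
  have e : (asm 1 (fun j => if j = 0 then [1, 0, 0] else [1]),
      asm 1 (fun j => if j = 0 then X n ++ [1, 0, 0] else [1])) = (Ed.ze.l n, Ed.ze.r n) := by
    rw [asm_one, asm_one]
    simp [Ed.l, Ed.r]
  rw [← e]
  exact h

end Pool.Agent.MWGR.H25
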