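import Pool.Agent.MWGR.StmtsC

/-!
# Row SWS of block MWGR: exchange of two light letters with a common later block
-/

set_option autoImplicit false

namespace Pool.Agent.MWGR.H25

open Pool.Agent.Helper14_MV Pool.Agent.Helper2_MV Pool.Agent.MVO Pool.Agent.MWL Pool.Agent.MWS
  Pool.Agent.MWH

theorem flatMap_X (m : ℕ) (σ : ℕ → List ℕ) : (X m).flatMap σ = rp m (σ 0) := by
  simp [rp, List.flatMap, List.map_replicate]

/-- a factor `a b` behind, uniformly in the first part -/
theorem key1 (hJMA : JmaStmt) (hJMB : JmbStmt) (n : ℕ) (η : FIC) (hB : BG n (RR η))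
    (hr : Al0 n (RR η) ∨ Rh n (RR η)) (suf : List ℕ) (a b : ℕ) (hC : Cl suf a b) :
    ∃ s1 s2 : List ℕ, ∀ U : List ℕ, a ∈ U → b ∈ U →
      RR η (U ++ suf) (U ++ (s1 ++ a :: b :: s2)) := by
  obtain ⟨q, w, r, hs, hw⟩ := hC
  obtain ⟨m, rfl⟩ : ∃ m, n = m + 1 := ⟨n - 1, by have := hB.pos; omega⟩
  rcases hr with h | h
  · refine ⟨q ++ a :: (w ++ List.replicate m a), r, fun U ha hb => ?_⟩
    have e0 : U ++ suf = (U ++ q) ++ a :: (w ++ b :: r) := by rw [hs]; simp
    have h1 := hJMA (m + 1) η hB h (U ++ q) w (b :: r) a (List.mem_append_left _ ha) (by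
      intro z hz
      rw [← e0, List.count_append]
      exact Nat.le_add_left_of_le (hw z hz))
    have e1 : (U ++ q) ++ a :: (w ++ (List.replicate (m + 1) a ++ b :: r)) =
        U ++ ((q ++ a :: (w ++ List.replicate m a)) ++ a :: b :: r) := by
      rw [List.replicate_succ']
      simp
    rw [e0, ← e1]
    exact h1
  · refine ⟨q, List.replicate m b ++ (w ++ b :: r), fun U ha hb => ?_⟩
    have e0 : U ++ suf = (U ++ (q ++ [a])) ++ (w ++ b :: r) := by rw [hs]; simp
    have h1 := hJMB (m + 1) η hB h (U ++ (q ++ [a])) w r b (List.mem_append_left _ hb) (by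
      intro z hz
      rw [← e0, List.count_append]
      exact Nat.le_add_left_of_le (hw z hz))
    have e1 : (U ++ (q ++ [a])) ++ (List.replicate (m + 1) b ++ (w ++ b :: r)) =
        U ++ (q ++ a :: b :: (List.replicate m b ++ (w ++ b :: r))) := by
      rw [List.replicate_succ]
      simp
    rw [e0, ← e1]
    exact h1

theorem sws (hGAP : MWGP.GapStmt) (hJMA : JmaStmt) (hJMB : JmbStmt) : SwsStmt := by
  intro n c η hB hE hr H pre suf a b hC A D W hW hOk
  -- the new end
  obtain ⟨s1, s2, hs⟩ : ∃ s1 s2 : List ℕ, ∀ U : List ℕ, a ∈ U → b ∈ U →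
      RR η (U ++ suf) (U ++ (s1 ++ a :: b :: s2)) := by
    rcases hC with hC | hC
    · exact key1 hJMA hJMB n η hB hr suf a b hC
    · obtain ⟨s1, s2, hs⟩ := key1 hJMA hJMB n η hB hr suf b a hC
      refine ⟨s1, s2, fun U ha hb => ?_⟩
      have h1 := hs U hb ha
      have h2 := (hGAP n η hB.ga hB.rn (U ++ s1) s2 b a (List.mem_append_left _ hb)).2
        (List.mem_append_left _ ha)
      have e : ∀ x y : ℕ, (U ++ s1) ++ x :: y :: s2 = U ++ (s1 ++ x :: y :: s2) := by
        intro x y; simp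
      rw [e, e] at h2
      exact η.trans h1 h2
  -- the literal identity
  have h3 := hE.sub (fun i => if i = 0 then W else if i = 1 then [a] else if i = 2 then [b] else
    D ++ s1)
  have h4 := ((RR.refl (β := η) (pre ++ A)).append h3).append (RR.refl (β := η) s2)
  set U1 : List ℕ := pre ++ (A ++ (rp n W ++ a :: (rp (n + c) W ++ b :: (rp n W ++ D)))) with hU1
  set U2 : List ℕ := pre ++ (A ++ (rp (n + c) W ++ b :: (rp (n + (n - 1) * c) W ++
          a :: (rp (n + c) W ++ D)))) with hU2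
  have e1 : Wd pre suf (A ++ (rp n W ++ a :: (rp (n + c) W ++ b :: (rp n W ++ D)))) = U1 ++ suf := by
    simp [Wd, hU1]
  have e2 : Wd pre suf (A ++ (rp (n + c) W ++ b :: (rp (n + (n - 1) * c) W ++
          a :: (rp (n + c) W ++ D)))) = U2 ++ suf := by
    simp [Wd, hU2]
  rw [e1, e2]
  have g1 := hs U1 (by simp [hU1]) (by simp [hU1])
  have g2 := hs U2 (by simp [hU2]) (by simp [hU2])
  refine η.trans g1 (η.trans ?_ (RR.symm g2))
  have k1 : pre ++ A ++ List.flatMap (fun i => if i = 0 then W else if i = 1 then [a] else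
      if i = 2 then [b] else D ++ s1) (X n ++ 1 :: (X (n + c) ++ 2 :: (X n ++ [3, 1, 2]))) ++ s2 =
      U1 ++ (s1 ++ a :: b :: s2) := by
    simp only [List.flatMap_append, List.flatMap_cons, flatMap_X, List.flatMap_nil, hU1]
    simp
  have k2 : pre ++ A ++ List.flatMap (fun i => if i = 0 then W else if i = 1 then [a] else
      if i = 2 then [b] else D ++ s1) (X (n + c) ++ 2 :: (X (n + (n - 1) * c) ++
        1 :: (X (n + c) ++ [3, 1, 2]))) ++ s2 = U2 ++ (s1 ++ a :: b :: s2) := by
    simp only [List.flatMap_append, List.flatMap_cons, flatMap_X, List.flatMap_nil, hU2]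
    simp
  rw [← k1, ← k2]
  exact h4

end Pool.Agent.MWGR.H25
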